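import Pool.Agent.U854.TW.Dlaw
import Pool.Agent.U374.Cub.Sel

/-!
# The conjecture of Bloch and Kato on the Abel–Jacobi map for diagonal cubic curves, threefolds and
# fivefolds over EVERY fixed field `F = K(∛d₁, …, ∛dₙ)`, `K = ℚ(√-3)`, `p = 3`

`K` is the field of the third roots of unity and `F = K(∛d₁, …, ∛dₙ)`, where the `dᵢ` are arbitrary
elements of `𝓞 K`, `1` modulo `3`, of norm `1` modulo `9`, independent modulo cubes.  `D` runs through
the squarefree `D = 1` modulo `3` of `𝓞 K`, prime to the `dᵢ`, whose norm is not `1` modulo `9`, ordered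
by the norm; there are at least `c X` of them.  A form `∑ a_i x_i ^ 3` belongs to `D` if one of the
coefficients is `D` or `D²` times a product of powers of the `dᵢ`, and all the others are products of
powers of the `dᵢ`.  Let `X_a` be the smooth cubic hypersurface of dimension `n = 2 c + 1`, `c = 0, 1, 2`,
with the equation `∑ a_i x_i ^ 3 = 0`, and `E_δ : y² + δ y = x³`.

* The proportion of the `D` for which all the `3 ^ n` curves `E_{D_t}`, `D_t = D ∏ dᵢ ^ tᵢ`, have
  finitely many points over `K` and trivial `Ш[3^∞]` tends to `p ^ [F : K]`, where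
  `p = ∏ (1 - 3 ^ {-(2 i + 1)}) = 0.639…`, `[F : K] = 3 ^ n`.
* For each of these `D`, for ALL the forms `a` that belong to `D`, for `n = 1, 3, 5`, and for both
  `k = K` and `k = F`: for all the curves `E = E_{δ_T}`, `δ_T = ∏ a_i ∏_{i ∈ T} a_i`, `T` a set of `c`
  indices, the groups `E(k) ⊗ ℚ_3` and `H¹_f(k, V_3 E)` are zero.
* At all the places `v` of `k` not dividing `3 D ∏ dᵢ` the trace of the Frobenius (and of its powers)
  on `H^n(X_a)` is the sum over all the `T` of `N(v)^c` times the trace on `H^1(E_{δ_T})`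
  (`Decomposition`).

By the last point and by Faltings, `V = H^n(X_a, ℚ_3(c + 1))` is the direct sum of the `V_3 E_{δ_T}`
and the intermediate Jacobian `J` of `X_a` is isogenous to the product of the `E_{δ_T}`; and
`CH^{c+1}(X_a)_0 ⊗ ℚ_3 = J(k) ⊗ ℚ_3` (Bloch–Murre for the threefolds, Collino and Paranjape for the
fivefolds); this is not formalized.  So `CH^{c+1}(X_a)_0 ⊗ ℚ_3 = 0 = H¹_f(k, V)`: the Abel–Jacobi map is
an isomorphism for `X = X_a`, `i = c` and `p = 3` over `K` and over every fixed field `F`.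

`H1f 3 W` (`Pool.Agent.Y667.BKP.H1f`, by helper667) is the group of the classes of the continuous
cocycles of the absolute Galois group with values in `V_3 W = T_3 W ⊗ ℚ_3` whose restriction to the
completion at every place is in the image of the Kummer map; this is the condition of Bloch and Kato.

The point counts are those of `Pool/Agent/N883/DQ` (for `MP_6dc9d1_nt.DiagonalCubics` and
`MP_009fd8_ag.DiagonalCubicsSelmer`, where the field is `ℚ` or a real field `ℚ(∛l : l ∈ S)` with primes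
`l = 1` modulo `9`); in `MajorityDiagonalCubics` of this problem the field is `K` or the field `K(∛D)`,
which depends on `D`.  The law of the twists and the curve `E_D` over `F` are those of helper854
(`Pool/Agent/U854/TW`), built on the libraries Q283/T3 and R432; new here are the points and the
Tate-Shafarevich group of the inverse twist `E_{D²}` over `F` and over `K` for all the twists, and the
Selmer groups of all the curves in the intermediate Jacobians.
-/

set_option autoImplicit false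

open scoped Classical

namespace Pool.Agent.Results.MP_787500_nt.FixedFieldsDiagonalCubics

open NumberField IsDedekindDomain WeierstrassCurve Filter
open Pool.Agent.TH841.NF.D (Sha)
open Pool.Agent.Y667.BKP (H1f)

/-- The curve `E_D : y² + D y = x³`. -/
def curve {F : Type} [Field F] (D : F) : WeierstrassCurve F := ⟨0, 0, D, 0, 0⟩

/-- The solutions, not all zero, of `∑ a i x i ^ 3 = 0` in the field `F`. -/
def solutions {m : ℕ} {F : Type} [Field F] (a : Fin m → F) : Set (Fin m → F) :=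
  {x | x ≠ 0 ∧ ∑ i, a i * x i ^ 3 = 0}

section field

variable {k : Type} [Field k] [NumberField k]

/-- `δ_T = ∏ a i ∏_{i ∈ T} a i`. -/
def delta {m : ℕ} (a : Fin m → 𝓞 k) (T : Finset (Fin m)) : 𝓞 k := (∏ i, a i) * ∏ i ∈ T, a i

/-- `X` has the dimension `n = 2 c + 1` and the equation `∑ a i x i ^ 3 = 0`.  For every place `v` of `k`
that does not divide `B` let `β T` and its complex conjugate be the eigenvalues of the Frobenius of
the curve `y² + δ_T y = x³` over the residue field of `v`.  Then for every extension `F` of degree `r` of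
the residue field (`f` is the reduction) the number of the nonzero solutions in `F` of the equation is
`(#F - 1) (1 + #F + ... + #F^n - ∑ ((N^c β T)^r + (N^c conj (β T))^r))`, the sum over all the sets
`T` of `c` indices, where `N` is the norm of `v`. -/
def Decomposition {c : ℕ} (a : Fin (2 * c + 3) → 𝓞 k) (B : 𝓞 k) : Prop :=
  ∀ v : HeightOneSpectrum (𝓞 k), B ∉ v.asIdeal →
    ∃ β : Finset (Fin (2 * c + 3)) → ℂ,
      (∀ T, β T * (starRingEnd ℂ) (β T) = Ideal.absNorm v.asIdeal ∧
        (Nat.card {P : (𝓞 k ⧸ v.asIdeal) × (𝓞 k ⧸ v.asIdeal) //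
          P.2 ^ 2 + Ideal.Quotient.mk v.asIdeal (delta a T) * P.2 = P.1 ^ 3} : ℂ) =
            Ideal.absNorm v.asIdeal - (β T + (starRingEnd ℂ) (β T))) ∧
      ∀ (F : Type) [Field F] [Finite F] (f : 𝓞 k →+* F) (r : ℕ), RingHom.ker f = v.asIdeal →
        Nat.card F = Ideal.absNorm v.asIdeal ^ r →
        ((solutions fun i => f (a i)).ncard : ℂ) = (Nat.card F - 1) *
          (∑ i ∈ Finset.range (2 * c + 2), (Nat.card F : ℂ) ^ i -
            ∑ T ∈ (Finset.univ : Finset (Fin (2 * c + 3))).powersetCard c,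
              (((Ideal.absNorm v.asIdeal : ℂ) ^ c * β T) ^ r +
                ((Ideal.absNorm v.asIdeal : ℂ) ^ c * (starRingEnd ℂ) (β T)) ^ r))

/-- `W` is an elliptic curve, and `W(k) ⊗ ℚ_3` and `H¹_f(k, V_3 W)` are zero. -/
def BothZero (W : WeierstrassCurve k) : Prop :=
  W.IsElliptic ∧ (∀ x : TensorProduct ℤ W.toAffine.Point ℚ_[3], x = 0) ∧ ∀ x : H1f 3 W, x = 0

/-- The cohomology of `X : ∑ a i x i ^ 3 = 0` decomposes, and both groups are zero for all the curves
`E_{δ_T}`, `T` a set of `c` indices. -/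
def SelmerZero {c : ℕ} (a : Fin (2 * c + 3) → 𝓞 k) (B : 𝓞 k) : Prop :=
  Decomposition a B ∧
    ∀ T : Finset (Fin (2 * c + 3)), T.card = c → BothZero (curve ((delta a T : 𝓞 k) : k))

end field

variable {K : Type} [Field K] [NumberField K]

/-- `d₁, …, dₙ` are `1` modulo `3`, their norms are `1` modulo `9`, and they are independent modulo
cubes. -/
structure Family {n : ℕ} (d : Fin n → 𝓞 K) : Prop where
  three : ∀ i, (3 : 𝓞 K) ∣ d i - 1
  nine : ∀ i, (9 : ℤ) ∣ Algebra.norm ℤ (d i) - 1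
  ind : ∀ a : Fin n → ℕ, (∃ x : 𝓞 K, x ^ 3 = ∏ i, d i ^ a i) → ∀ i, 3 ∣ a i

/-- `F = K(∛d₁, …, ∛dₙ)`. -/
def Generated {n : ℕ} (d : Fin n → 𝓞 K) (F : Type) [Field F] [Algebra K F] : Prop :=
  ∃ r : Fin n → F, (∀ i, r i ^ 3 = algebraMap K F (d i : K)) ∧
    ∀ L : Subfield F, (∀ k : K, algebraMap K F k ∈ L) → (∀ i, r i ∈ L) → L = ⊤

/-- `D` is squarefree and `1` modulo `3`, its norm is not `1` modulo `9`, and it is prime to the `dᵢ`. -/
def InClass {n : ℕ} (d : Fin n → 𝓞 K) (D : 𝓞 K) : Prop :=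
  ((3 : 𝓞 K) ∣ D - 1 ∧ Squarefree D ∧ ¬ (9 : ℤ) ∣ Algebra.norm ℤ D - 1) ∧
    ∀ π : 𝓞 K, Prime π → π ∣ D → ¬ π ∣ ∏ i, d i

/-- `D_t = D ∏ dᵢ ^ tᵢ`, `t` in `(ℤ/3)ⁿ` (the exponents are taken in `{0, 1, 2}`). -/
noncomputable def twist {n : ℕ} (d : Fin n → 𝓞 K) (D : 𝓞 K) (t : Fin n → ZMod 3) : 𝓞 K :=
  D * ∏ i, d i ^ (t i).val

/-- For all `t` the group `E_{D_t}(K)` is finite and the `3`-primary part of `Ш(E_{D_t} / K)` is
trivial. -/
def AllTrivial {n : ℕ} (d : Fin n → 𝓞 K) (D : 𝓞 K) : Prop :=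
  ∀ t : Fin n → ZMod 3, Finite (curve (twist d D t : K)).toAffine.Point ∧
    ∀ (m : ℕ) (x : Sha (curve (twist d D t : K))), 3 ^ m • x = 0 → x = 0

/-- the `D` in the class of norm at most `X` with the property `P` -/
def upTo {n : ℕ} (d : Fin n → 𝓞 K) (X : ℕ) (P : 𝓞 K → Prop) : Set (𝓞 K) :=
  {D | (Algebra.norm ℤ D ≤ X ∧ InClass d D) ∧ P D}

/-- the proportion of the `D` of norm at most `X` in the class with the property `P` -/
noncomputable def proportion {n : ℕ} (d : Fin n → 𝓞 K) (P : 𝓞 K → Prop) (X : ℕ) : ℝ :=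
  ((upTo d X P).ncard : ℝ) / ((upTo d X fun _ => True).ncard : ℝ)

/-- `p = ∏_{i ≥ 0} (1 - 3^{-(2 i + 1)})` -/
noncomputable def p : ℝ := ∏' i : ℕ, (1 - (1 / 3 : ℝ) ^ (2 * i + 1))

/-- `y` is a product of powers of the `dᵢ`. -/
def Monomial {n : ℕ} (d : Fin n → 𝓞 K) (y : 𝓞 K) : Prop := ∃ m : Fin n → ℕ, y = ∏ i, d i ^ m i

/-- The form `∑ a i x i ^ 3` belongs to `D`: one of the coefficients is `D` or `D²` times a product of
powers of the `dᵢ`, and all the others are products of powers of the `dᵢ`. -/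
def Belongs {n m : ℕ} (d : Fin n → 𝓞 K) (D : 𝓞 K) (a : Fin m → 𝓞 K) : Prop :=
  ∃ i₀, (∃ y, Monomial d y ∧ (a i₀ = D * y ∨ a i₀ = D ^ 2 * y)) ∧
    ∀ i, i ≠ i₀ → Monomial d (a i)

/-! ### The proof -/

open Pool.Agent.U854.TW (law_triv perF prodd_ne)
open Q283.T3B (NC low_K fin_K)
open Pool.Agent.Y696.CTK (ClsK Tri)
open Pool.Agent.U374.Cub (bz_K bz_F Decomp)
open Pool.Agent.U374.BK (BZ)

omit [NumberField K] in
theorem fam {n : ℕ} {d : Fin n → 𝓞 K} (hd : Family d) : Pool.Agent.U854.TW.Family d :=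
  ⟨hd.three, hd.nine, hd.ind⟩

theorem sz_of {k : Type} [Field k] [NumberField k] {c : ℕ} {a : Fin (2 * c + 3) → 𝓞 k} {B : 𝓞 k}
    (h : Decomp a B) (h' : ∀ T : Finset (Fin (2 * c + 3)),
      BZ (Pool.Agent.Y696.CTK.ED (((∏ i, a i) * ∏ i ∈ T, a i : 𝓞 k) : k))) : SelmerZero a B :=
  ⟨h, fun T _ => h' T⟩

/-- There is a field generated by the cube roots. -/
theorem exists_generated {n : ℕ} (d : Fin n → 𝓞 K) :
    ∃ (F : Type) (_ : Field F) (_ : NumberField F) (_ : Algebra K F), Generated d F := by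
  let p : Polynomial K := ∏ i, (Polynomial.X ^ 3 - Polynomial.C (d i : K))
  let F : Type := p.SplittingField
  have : NumberField F := NumberField.of_module_finite K F
  have hp0 : p ≠ 0 := Finset.prod_ne_zero_iff.2 fun i _ =>
    Polynomial.X_pow_sub_C_ne_zero (by norm_num) _
  have hsp : (p.map (algebraMap K F)).Splits := Polynomial.SplittingField.splits p
  have hp0' : p.map (algebraMap K F) ≠ 0 :=
    (Polynomial.map_ne_zero_iff (algebraMap K F).injective).2 hp0
  have hroot : ∀ i, ∃ x : F, x ^ 3 = algebraMap K F (d i : K) := by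
    intro i
    have h1 : ((Polynomial.X ^ 3 - Polynomial.C (d i : K)).map (algebraMap K F)).Splits :=
      hsp.of_dvd hp0' (Polynomial.map_dvd _ (Finset.dvd_prod_of_mem _ (Finset.mem_univ i)))
    obtain ⟨x, hx⟩ := h1.exists_eval_eq_zero (by
      rw [Polynomial.degree_map, Polynomial.degree_X_pow_sub_C (by norm_num)]
      norm_num)
    refine ⟨x, ?_⟩
    simp at hx
    linear_combination hx
  choose r hr using hroot
  let M : IntermediateField K F := IntermediateField.adjoin K (Set.range r)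
  have hMn : NumberField M := NumberField.of_module_finite K M
  have hrM : ∀ i, r i ∈ M := fun i => IntermediateField.subset_adjoin K _ ⟨i, rfl⟩
  refine ⟨M, inferInstance, hMn, inferInstance, fun i => ⟨r i, hrM i⟩,
    fun i => ?_, fun L hL1 hL2 => ?_⟩
  · apply Subtype.ext
    exact hr i
  · rw [eq_top_iff]
    intro y _
    let L' : IntermediateField K F :=
      { (L.map (algebraMap M F)) with
        algebraMap_mem' := fun k => ⟨algebraMap K M k, hL1 k, rfl⟩ }
    have h1 : M ≤ L' := by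
      apply IntermediateField.adjoin_le_iff.2
      rintro _ ⟨i, rfl⟩
      exact ⟨_, hL2 i, rfl⟩
    obtain ⟨y', hy', h2⟩ := h1 y.2
    have h3 : y' = y := Subtype.ext h2
    rw [← h3]
    exact hy'

/-- **Main theorem.** -/
theorem result (K : Type) [Field K] [NumberField K] [IsCyclotomicExtension {3} ℚ K] (n : ℕ)
    (d : Fin n → 𝓞 K) (hd : Family d) :
    -- the field exists, and the class has positive density
    (∃ (F : Type) (_ : Field F) (_ : NumberField F) (_ : Algebra K F), Generated d F) ∧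
    (∃ c : ℝ, 0 < c ∧ ∃ X₀ : ℕ, ∀ X : ℕ, X₀ ≤ X → c * X ≤ ((upTo d X fun _ => True).ncard : ℝ)) ∧
    -- the proportion
    Tendsto (proportion d (AllTrivial d)) atTop (nhds (p ^ (3 ^ n))) ∧ 0.639 < p ∧
    -- the hypersurfaces over `K` and over `F`
    ∀ D : 𝓞 K, InClass d D → AllTrivial d D → ∀ c : ℕ, c ≤ 2 → ∀ a : Fin (2 * c + 3) → 𝓞 K,
      Belongs d D a → SelmerZero a (3 * D * ∏ i, d i) ∧
      ∀ (F : Type) [Field F] [NumberField F] [Algebra K F], Generated d F →
        Module.finrank K F = 3 ^ n ∧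
        SelmerZero (fun i => algebraMap (𝓞 K) (𝓞 F) (a i))
          (algebraMap (𝓞 K) (𝓞 F) (3 * D * ∏ i, d i)) := by
  have hC9 := Pool.Agent.Y703.XL.t_C9
  have hset0 : ∀ X : ℕ, (upTo d X fun _ => True) =
      {D : 𝓞 K | Algebra.norm ℤ D ≤ X ∧ ClsK D ∧ NC D (∏ i, d i)} := by
    intro X
    ext D
    show ((_ ∧ (_ ∧ _)) ∧ True) ↔ (_ ∧ _ ∧ _)
    rw [and_true]
    exact Iff.rfl
  have hset2 : ∀ X : ℕ, upTo d X (AllTrivial d) =
      {D : 𝓞 K | Algebra.norm ℤ D ≤ X ∧ ClsK D ∧ NC D (∏ i, d i) ∧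
        ∀ t, (Tri (D * Pool.Agent.U854.TW.mt d t) ↔
          t ∈ (Finset.univ : Finset (Fin n → ZMod 3)))} := by
    intro X
    ext D
    have h1 : AllTrivial d D ↔ ∀ t, (Tri (D * Pool.Agent.U854.TW.mt d t) ↔
        t ∈ (Finset.univ : Finset (Fin n → ZMod 3))) := by
      refine forall_congr' fun t => ?_
      simp only [Finset.mem_univ, iff_true]
      exact Iff.rfl
    have h2 : D ∈ upTo d X (AllTrivial d) ↔ (Algebra.norm ℤ D ≤ X ∧ InClass d D) ∧ AllTrivial d D :=
      Iff.rfl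
    rw [h2, h1, Set.mem_ofPred_eq, and_assoc]
    refine and_congr_right fun _ => ?_
    show ((_ ∧ _) ∧ _) ↔ (_ ∧ _ ∧ _)
    rw [and_assoc]
    exact Iff.rfl
  refine ⟨exists_generated d, ?_, ?_, hC9.2.2.2.1, ?_⟩
  · obtain ⟨c, hc, X₀, h⟩ := low_K K (∏ i, d i) (prodd_ne (fam hd))
    refine ⟨c, hc, X₀, fun X hX => ?_⟩
    rw [hset0]
    exact h X hX
  · have h := law_triv K (fam hd) (Finset.univ : Finset (Fin n → ZMod 3))
    have e : Pool.Agent.Y703.XL.cr 0 ^ (Finset.univ : Finset (Fin n → ZMod 3)).card *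
        (1 - Pool.Agent.Y703.XL.cr 0) ^
          (3 ^ n - (Finset.univ : Finset (Fin n → ZMod 3)).card) = p ^ (3 ^ n) := by
      rw [Finset.card_univ, Fintype.card_fun, ZMod.card, Fintype.card_fin, Nat.sub_self, pow_zero,
        mul_one]
      congr 1
      unfold Pool.Agent.Y703.XL.cr
      rw [Finset.prod_range_zero, div_one]
      rfl
    rw [e] at h
    refine h.congr fun X => ?_
    unfold proportion
    rw [hset2, hset0]
  · intro D hD ht c hc a ha
    have htri : ∀ t, Tri (D * Pool.Agent.U854.TW.mt d t) := ht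
    obtain ⟨k1, k2⟩ := bz_K K (fam hd) hD.1 htri hc ha
    refine ⟨sz_of k1 k2, fun F _ _ _ hF => ?_⟩
    obtain ⟨x, hx, hgen⟩ := hF
    obtain ⟨r, h1, h2⟩ := perF K (fam hd) hD.1
    obtain ⟨h3, -, h5⟩ := h2 F x hx hgen
    obtain ⟨-, h7, h8⟩ := h5 fun t => (h1 t).2.2.2 (htri t)
    obtain ⟨k3, k4⟩ := bz_F K (fam hd) hD.1 htri x hx hgen h3 h7 h8 hc ha
    exact ⟨h3, sz_of k3 k4⟩

end Pool.Agent.Results.MP_787500_nt.FixedFieldsDiagonalCubics
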