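import Pool.Agent.Results.MP_787500_nt.AllWeightsMultiquadraticX49
import Pool.Agent.Results.MP_32c55d_nt.InertTowersX49

/-!
# The Bloch–Kato Selmer groups of all odd weights vanish over all the layers of an infinite extension,
# for exactly the proportion `0.4194…` of the twists of `X_0(49)`

`K = ℚ(√-7)`; the class consists of the squarefree `D ≡ 1 mod 8` with all prime factors `1 mod 8` and split
in `K` or `5 mod 8` and inert in `K`. For `D` in the class let the tower primes be the primes `q ≡ 5 mod 8`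
that are inert in `K` and squares modulo all the prime factors of `D` that split in `K`; they are infinitely
many, and depend on `D` only through its split prime factors. Let `K_∞(D)` be the extension of `K` generated by
the `√(q q')`, `q`, `q'` tower primes; it has infinite degree.

We prove: if `E_D(ℚ)` is finite and `Ш(E_D/ℚ)` has no element of order two, then for ALL the finite layers
`L = K(√d_1, …, √d_n)` of `K_∞(D)` (`d_i` products of an even number of tower primes) and for ALL the twists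
`M = D ∏_{q ∈ U} q` (`U` an even number of tower primes, also prime factors of `D` are allowed) the Bloch–Kato
Selmer groups over `L` of the `2`-adic representations of the newforms of all weights `2k`, `k` odd, of the
Hecke characters `ψ_M^{2k-1}` are zero. The hypothesis holds for exactly the proportion
`c = ∏ (1 - 2^{-(2i+1)}) = 0.4194…` of the `D` of the class. In the starting file
`AllWeightsMultiquadraticX49` the proportion for a layer of degree `2 ^ n` is `c ^ (2 ^ n)`, so that nothing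
is left for the whole tower.
-/

set_option autoImplicit false

open scoped Classical

namespace Pool.Agent.Results.MP_787500_nt.InfiniteTowersX49

open Pool.Agent.Results.MP_787500_nt.AllWeightsMultiquadraticX49 (Adm RankZeroShaTwo AllWeights Good
  prop c Ind)

/-- the primes `q ≡ 5 mod 8` that are inert in `ℚ(√-7)` and squares modulo all the prime factors of `D`
that split in `ℚ(√-7)` -/
def TowerPrime (D q : ℕ) : Prop :=
  q.Prime ∧ q % 8 = 5 ∧ (q % 7 = 3 ∨ q % 7 = 5 ∨ q % 7 = 6) ∧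
    ∀ p : ℕ, p.Prime → p ∣ D → (p % 7 = 1 ∨ p % 7 = 2 ∨ p % 7 = 4) → IsSquare (q : ZMod p)

/-- a set of an even number of tower primes -/
def EvenSet (D : ℕ) (S : Finset ℕ) : Prop := (∀ q ∈ S, TowerPrime D q) ∧ Even S.card

section proof

open Pool.Agent.U80.MQ (QD tw tw_spec adm_prod det_symm)
open Pool.Agent.Results.MP_32c55d_nt.InertTowersX49 (crit TrivialTwo tower_iff tp_iff)

/-- the larger class -/
abbrev Adm4 (D : ℕ) : Prop := Pool.Agent.Results.MP_4a9ea6_nt.TwoPartTwistsX49.Adm D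

theorem adm4 {D : ℕ} (h : Adm D) : Adm4 D := by
  refine ⟨h.1, fun p hp => ?_⟩
  rcases h.2.2 p (Nat.prime_of_mem_primeFactors hp) (Nat.dvd_of_mem_primeFactors hp) with h1 | h1
  · omega
  · omega

theorem E_eq {D : ℕ} (h : D % 4 = 1) :
    Pool.Agent.Results.MP_787500_nt.AllWeightsMultiquadraticX49.E D =
      Pool.Agent.Results.MP_4a9ea6_nt.TwoPartTwistsX49.E D := by
  obtain ⟨j, hj⟩ : ∃ j : ℕ, D = 1 + 4 * j := ⟨D / 4, by omega⟩
  have h1 : (3 * (D : ℤ) + 1) / 4 = 1 + 3 * j := by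
    rw [hj]
    push_cast
    omega
  have h2 : (D : ℚ) = 1 + 4 * j := by rw [hj]; push_cast; ring
  unfold Pool.Agent.Results.MP_787500_nt.AllWeightsMultiquadraticX49.E
    Pool.Agent.Results.MP_4a9ea6_nt.TwoPartTwistsX49.E
    Pool.Agent.Results.MP_4a9ea6_nt.TwoPartTwistsX49.twist WeierstrassCurve.map
  rw [h1]
  ext
  · simp
  · simp only [eq_intCast]
    push_cast
    rw [h2]
    ring
  · simp
  · simp
  · simp

theorem rz_iff {D : ℕ} (h : Adm4 D) : RankZeroShaTwo D ↔ TrivialTwo D := by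
  have h4 : D % 4 = 1 := Pool.Agent.Results.MP_4a9ea6_nt.TwoPartTwistsX49.adm_mod h
  have h1 := Pool.Agent.R413.SQ.Cor.same h4
  unfold RankZeroShaTwo
  rw [E_eq h4]
  refine Iff.trans ?_ h1.symm
  simp only [two_nsmul]

theorem mod_of {a g b : ℕ} (h : a * g ^ 2 = b) (hb : b % 8 = 1) : a % 8 = 1 := by
  have h4 : ((a % 8) * ((g % 8) ^ 2 % 8)) % 8 = 1 := by
    rw [← hb, ← h, Nat.mul_mod a, Nat.pow_mod g]
  have hx8 : a % 8 < 8 := Nat.mod_lt _ (by norm_num)
  have hg8 : g % 8 < 8 := Nat.mod_lt _ (by norm_num)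
  revert h4
  generalize a % 8 = a at *
  generalize g % 8 = b at *
  interval_cases a <;> interval_cases b <;> simp

theorem prod_five {S : Finset ℕ} (h : ∀ q ∈ S, q % 8 = 5) (he : Even S.card) :
    (∏ q ∈ S, q) % 8 = 1 := by
  rw [Finset.prod_nat_mod, Finset.prod_congr rfl h, Finset.prod_const]
  obtain ⟨k, hk⟩ := he
  rw [hk, ← two_mul, pow_mul, Nat.pow_mod]
  simp

theorem tp_qd {D q : ℕ} (hD : Adm D) (h : TowerPrime D q) : QD D q := by
  rw [← tp_iff]
  refine ⟨h.1, by have := h.2.1; omega, h.2.2.1, fun p hp h1 => ?_⟩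
  exact h.2.2.2 p (Nat.prime_of_mem_primeFactors hp) (Nat.dvd_of_mem_primeFactors hp) h1

/-- the members of the tower -/
theorem member {D : ℕ} (hD : Adm D) (hR : RankZeroShaTwo D) {U : Finset ℕ} (hU : EvenSet D U) :
    ∃ D' g : ℕ, g ≠ 0 ∧ Adm D' ∧ RankZeroShaTwo D' ∧ D * ∏ q ∈ U, q = D' * g ^ 2 := by
  have hA := adm4 hD
  have hQ : ∀ q ∈ U, QD D q := fun q hq => tp_qd hD (hU.1 q hq)
  obtain ⟨h1, h2⟩ := adm_prod hQ
  obtain ⟨e1, e2⟩ := tw_spec h1.1.ne_zero hD.1.ne_zero
  have hA' : Adm4 (tw (∏ q ∈ U, q) D) := Pool.Agent.R413.SQ.Joint.adm_tw h1 hA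
  have hpf : (tw (∏ q ∈ U, q) D).primeFactors = symmDiff D.primeFactors U := by
    have := Pool.Agent.R413.SQ.Joint.tw_pf h1 hA
    rw [h2] at this
    exact this
  refine ⟨tw (∏ q ∈ U, q) D, Nat.gcd (∏ q ∈ U, q) D, Nat.gcd_ne_zero_right hD.1.ne_zero,
    ⟨hA'.1, ?_, fun p hp hpd => ?_⟩, ?_, ?_⟩
  · refine mod_of e1 ?_
    rw [Nat.mul_mod, hD.2.1, prod_five (fun q hq => (hU.1 q hq).2.1) hU.2]
  · have hm : p ∈ (tw (∏ q ∈ U, q) D).primeFactors := hp.mem_primeFactors hpd e2
    rw [hpf] at hm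
    rcases Finset.mem_symmDiff.1 hm with h | h
    · exact hD.2.2 p hp (Nat.dvd_of_mem_primeFactors h.1)
    · exact Or.inr ⟨(hU.1 p h.1).2.1, (hU.1 p h.1).2.2.1⟩
  · rw [rz_iff hA']
    exact (tower_iff hA fun q hq => (tp_iff D q).2 (hQ q hq)).2 ((rz_iff hA).1 hR)
  · rw [e1, mul_comm]

theorem even_symm {A B : Finset ℕ} (hA : Even A.card) (hB : Even B.card) :
    Even ((A \ B) ∪ (B \ A)).card := by
  rw [Finset.card_union_of_disjoint (by
    rw [Finset.disjoint_left]
    intro x hx hy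
    exact (Finset.mem_sdiff.1 hx).2 (Finset.mem_sdiff.1 hy).1)]
  have h1 := Finset.card_sdiff_add_card_inter A B
  have h2 := Finset.card_sdiff_add_card_inter B A
  rw [Finset.inter_comm] at h2
  obtain ⟨a, ha⟩ := hA
  obtain ⟨b, hb⟩ := hB
  refine ⟨a + b - (A ∩ B).card, ?_⟩
  omega

theorem even_prod {D : ℕ} {U : Finset ℕ} (hU : EvenSet D U) {n : ℕ} (S : Fin n → Finset ℕ)
    (hS : ∀ i, EvenSet D (S i)) (T : Finset (Fin n)) :
    ∃ (V : Finset ℕ) (k : ℕ), EvenSet D V ∧ k ≠ 0 ∧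
      (∏ q ∈ U, q) * ∏ i ∈ T, ∏ q ∈ S i, q = (∏ q ∈ V, q) * k ^ 2 := by
  induction T using Finset.induction_on with
  | empty => exact ⟨U, 1, hU, one_ne_zero, by simp⟩
  | insert a T ha ih =>
    obtain ⟨V, k, hV, hk, h⟩ := ih
    refine ⟨(S a \ V) ∪ (V \ S a), k * ∏ q ∈ S a ∩ V, q, ⟨?_, even_symm (hS a).2 hV.2⟩, ?_, ?_⟩
    · intro q hq
      rcases Finset.mem_union.1 hq with h1 | h1
      · exact (hS a).1 q (Finset.mem_sdiff.1 h1).1
      · exact hV.1 q (Finset.mem_sdiff.1 h1).1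
    · exact mul_ne_zero hk (Finset.prod_ne_zero_iff.2 fun q hq =>
        (hV.1 q (Finset.mem_inter.1 hq).2).1.ne_zero)
    · have e1 : ∏ q ∈ S a, q = (∏ q ∈ S a \ V, q) * ∏ q ∈ S a ∩ V, q := by
        rw [← Finset.prod_union (Finset.disjoint_sdiff_inter _ _), Finset.sdiff_union_inter]
      have e2 : ∏ q ∈ V, q = (∏ q ∈ V \ S a, q) * ∏ q ∈ S a ∩ V, q := by
        rw [Finset.inter_comm, ← Finset.prod_union (Finset.disjoint_sdiff_inter _ _),
          Finset.sdiff_union_inter]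
      rw [Finset.prod_insert ha, Finset.prod_union (by
        rw [Finset.disjoint_left]
        intro x hx hy
        exact (Finset.mem_sdiff.1 hx).2 (Finset.mem_sdiff.1 hy).1)]
      calc (∏ q ∈ U, q) * ((∏ q ∈ S a, q) * ∏ i ∈ T, ∏ q ∈ S i, q)
          = (∏ q ∈ S a, q) * ((∏ q ∈ U, q) * ∏ i ∈ T, ∏ q ∈ S i, q) := by ring
        _ = (∏ q ∈ S a, q) * ((∏ q ∈ V, q) * k ^ 2) := by rw [h]
        _ = _ := by
          rw [e1, e2]
          ring

theorem good {D : ℕ} (hD : Adm D) (hR : RankZeroShaTwo D) {U : Finset ℕ} (hU : EvenSet D U) {n : ℕ}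
    (S : Fin n → Finset ℕ) (hS : ∀ i, EvenSet D (S i)) :
    Good (D * ∏ q ∈ U, q) (fun i => ∏ q ∈ S i, q) := by
  intro T
  obtain ⟨V, k, hV, hk, h⟩ := even_prod hU S hS T
  obtain ⟨D', g, hg, h1, h2, h3⟩ := member hD hR hV
  refine ⟨D', g * k, mul_ne_zero hg hk, h1, h2, ?_⟩
  calc D * (∏ q ∈ U, q) * ∏ i ∈ T, ∏ q ∈ S i, q = D * ((∏ q ∈ U, q) * ∏ i ∈ T, ∏ q ∈ S i, q) := by
        ring
    _ = (D * ∏ q ∈ V, q) * k ^ 2 := by rw [h]; ring
    _ = D' * (g * k) ^ 2 := by rw [h3]; ring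

/-- infinitely many tower primes -/
theorem tp_inf {D : ℕ} (hD : Adm D) : {q : ℕ | TowerPrime D q}.Infinite := by
  have hD0 : D ≠ 0 := hD.1.ne_zero
  have h56 : Nat.Coprime 56 D := by
    have h2 : ¬ 2 ∣ D := by
      intro h
      have := hD.2.1
      omega
    have h7 : ¬ 7 ∣ D := by
      intro h
      have := hD.2.2 7 (by norm_num) h
      omega
    have e : (56 : ℕ) = 2 ^ 3 * 7 := by norm_num
    rw [e]
    exact Nat.Coprime.mul_left (Nat.Coprime.pow_left 3
      ((Nat.Prime.coprime_iff_not_dvd Nat.prime_two).2 h2))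
      ((Nat.Prime.coprime_iff_not_dvd (by norm_num)).2 h7)
  obtain ⟨a, ha1, ha2⟩ := Nat.chineseRemainder h56 45 1
  have hN : 56 * D ≠ 0 := by positivity
  have hu : a.Coprime (56 * D) := by
    refine Nat.Coprime.mul_right ?_ ?_
    · have := ha1.gcd_eq
      exact this
    · have := ha2.gcd_eq
      rw [Nat.gcd_one_left] at this
      exact this
  refine (Nat.infinite_setOfPred_prime_and_modEq hN hu).mono ?_
  rintro q ⟨hq, hmod⟩
  have h1 : q ≡ 45 [MOD 56] := (hmod.of_dvd (Dvd.intro _ rfl)).trans ha1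
  have h3 : q ≡ 1 [MOD D] := (hmod.of_dvd (Dvd.intro_left _ rfl)).trans ha2
  have h4 : q % 56 = 45 := h1
  refine ⟨hq, by omega, by omega, fun p _ hpD _ => ?_⟩
  have h6 : q ≡ 1 [MOD p] := h3.of_dvd hpD
  have h7 : ((q : ℕ) : ZMod p) = 1 := by
    have := (ZMod.natCast_eq_natCast_iff _ _ _).2 h6
    rw [this, Nat.cast_one]
  rw [h7]
  exact ⟨1, by ring⟩

/-- layers of every degree -/
theorem exists_ind {D : ℕ} (hD : Adm D) (n : ℕ) :
    ∃ S : Fin n → Finset ℕ, (∀ i, EvenSet D (S i)) ∧ Ind fun i => ∏ q ∈ S i, q := by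
  obtain ⟨f, hf⟩ := (tp_inf hD).exists_subset_card_eq (2 * n)
  obtain ⟨hf1, hf2⟩ := hf
  let e : Fin (2 * n) ≃ f := (f.equivFinOfCardEq hf2).symm
  let a : Fin n → ℕ := fun i => (e ⟨2 * i.1, by omega⟩ : ℕ)
  let b : Fin n → ℕ := fun i => (e ⟨2 * i.1 + 1, by omega⟩ : ℕ)
  have ha : ∀ i, TowerPrime D (a i) := fun i => hf1 (e _).2
  have hb : ∀ i, TowerPrime D (b i) := fun i => hf1 (e _).2
  have hinj : ∀ x y : Fin (2 * n), (e x : ℕ) = (e y : ℕ) → x = y := fun x y h =>
    e.injective (Subtype.ext h)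
  have hab : ∀ i j, a i ≠ b j := by
    intro i j h
    have h1 := hinj _ _ h
    have h2 := congrArg Fin.val h1
    simp only at h2
    omega
  have haa : Function.Injective a := by
    intro i j h
    have h1 := congrArg Fin.val (hinj _ _ h)
    simp only at h1
    exact Fin.ext (by omega)
  refine ⟨fun i => {a i, b i}, fun i => ⟨fun q hq => ?_, ?_⟩, ?_⟩
  · rcases Finset.mem_insert.1 hq with rfl | h
    · exact ha i
    · rw [Finset.mem_singleton.1 h]
      exact hb i
  · rw [Finset.card_pair (hab i i)]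
    exact ⟨1, rfl⟩
  · intro T hT hsq
    obtain ⟨i, hi⟩ := hT
    have hp := (ha i).1
    have hprod : ∏ j ∈ T, ∏ q ∈ ({a j, b j} : Finset ℕ), q = ∏ j ∈ T, a j * b j :=
      Finset.prod_congr rfl fun j _ => Finset.prod_pair (hab j j)
    have hsq' : IsSquare (∏ j ∈ T, a j * b j) := by rw [← hprod]; exact hsq
    rw [← Finset.mul_prod_erase T _ hi] at hsq'
    obtain ⟨r, hr⟩ := hsq'
    have h1 : a i ∣ r * r := ⟨b i * ∏ j ∈ T.erase i, a j * b j, by rw [← hr]; ring⟩
    have h2 : a i ∣ r := (hp.dvd_mul.1 h1).elim id id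
    obtain ⟨s, rfl⟩ := h2
    have h3 : a i ∣ b i * ∏ j ∈ T.erase i, a j * b j := by
      refine ⟨s * s, ?_⟩
      have h4 : a i * (b i * ∏ j ∈ T.erase i, a j * b j) = a i * (a i * (s * s)) := by
        have : a i * b i * ∏ j ∈ T.erase i, a j * b j = a i * s * (a i * s) := hr
        calc a i * (b i * ∏ j ∈ T.erase i, a j * b j) = a i * b i * ∏ j ∈ T.erase i, a j * b j := by
              ring
          _ = _ := by rw [this]; ring
      exact Nat.eq_of_mul_eq_mul_left hp.pos h4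
    rcases hp.dvd_mul.1 h3 with h5 | h5
    · exact hab i i ((Nat.prime_dvd_prime_iff_eq hp (hb i).1).1 h5)
    · obtain ⟨j, hj, h6⟩ := (Nat.Prime.prime hp).exists_mem_finset_dvd h5
      rcases hp.dvd_mul.1 h6 with h7 | h7
      · have h8 := (Nat.prime_dvd_prime_iff_eq hp (ha j).1).1 h7
        exact (Finset.mem_erase.1 hj).1 (haa h8).symm
      · exact hab i j ((Nat.prime_dvd_prime_iff_eq hp (hb j).1).1 h7)

/-- the exact proportion -/
theorem law : Filter.Tendsto (prop RankZeroShaTwo) Filter.atTop (nhds c) := by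
  have h := Pool.Agent.R426.QB.prop_field Pool.Agent.Y687.JQ.t_JDEN (n := 0)
    (d := Fin.elim0) (fun T hT => absurd hT (by
      rw [Finset.not_nonempty_iff_eq_empty]
      exact Finset.eq_empty_of_isEmpty T)) (fun i => i.elim0) (N := 1)
    ⟨1, ⟨squarefree_one, by simp⟩, 1, one_ne_zero, Or.inl (by norm_num)⟩
  rw [pow_zero, pow_one] at h
  refine h.congr fun X => ?_
  unfold prop
  have key : ∀ D : ℕ, Pool.Agent.R426.QB.Ac8 D →
      (Pool.Agent.R426.QB.GO (Fin.elim0 : Fin 0 → ℤ) (1 * (D : ℤ)) ↔ RankZeroShaTwo D) := by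
    intro D hD
    have hA := (Pool.Agent.Results.MP_787500_nt.AllWeightsMultiquadraticX49.adm_iff D).2 hD
    constructor
    · intro h1
      obtain ⟨D', hD', k, hk, hz⟩ := h1 ∅
      rw [Finset.prod_empty, one_mul, mul_one] at hz
      have hDpos : (0 : ℤ) < D := by exact_mod_cast Nat.pos_of_ne_zero hA.1.ne_zero
      have hD'pos : (0 : ℤ) < D' := by exact_mod_cast Nat.pos_of_ne_zero hD'.1.1.ne_zero
      have hk2 : 0 < k ^ 2 := by positivity
      have h2 : (D : ℤ) = D' * k ^ 2 := by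
        rcases hz with h3 | h3
        · exact h3
        · exfalso
          nlinarith [mul_pos hD'pos hk2]
      have h3 : D = D' * k.natAbs ^ 2 := by
        have h4 : ((D : ℕ) : ℤ) = ((D' * k.natAbs ^ 2 : ℕ) : ℤ) := by
          push_cast
          rw [sq_abs]
          exact h2
        exact_mod_cast h4
      have h5 : k.natAbs = 1 := by
        have h6 : k.natAbs * k.natAbs ∣ D := ⟨D', by rw [h3]; ring⟩
        exact Nat.isUnit_iff.1 (hA.1 _ h6)
      rw [h5, one_pow, mul_one] at h3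
      rw [h3]
      exact (Pool.Agent.Results.MP_787500_nt.AllWeightsMultiquadraticX49.good_iff hD'.1).2 hD'.2
    · intro h1 T
      refine ⟨D, ⟨hD.1, (Pool.Agent.Results.MP_787500_nt.AllWeightsMultiquadraticX49.good_iff
        hD.1).1 h1⟩, 1, one_ne_zero, Or.inl ?_⟩
      rw [Finset.eq_empty_of_isEmpty T, Finset.prod_empty]
      ring
  congr 2
  · refine congrArg Finset.card (Finset.filter_congr fun D _ => ?_)
    constructor
    · rintro ⟨h1, h2⟩
      exact ⟨(Pool.Agent.Results.MP_787500_nt.AllWeightsMultiquadraticX49.adm_iff D).2 h1,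
        (key D h1).1 h2⟩
    · rintro ⟨h1, h2⟩
      have h3 := (Pool.Agent.Results.MP_787500_nt.AllWeightsMultiquadraticX49.adm_iff D).1 h1
      exact ⟨h3, (key D h3).2 h2⟩
  · exact congrArg Finset.card (Finset.filter_congr fun D _ =>
      (Pool.Agent.Results.MP_787500_nt.AllWeightsMultiquadraticX49.adm_iff D).symm)

end proof

/-- **Theorem.** Let `D` be in the class. There are infinitely many tower primes, and for every `n` there
are layers of degree `2 ^ n`. If `E_D(ℚ)` is finite and `Ш(E_D/ℚ)` has no element of order two, then for all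
`M = D ∏_{q ∈ U} q` and all `d_1, …, d_n`, which are products of an even number of tower primes, the Selmer
groups of all odd weights for `E_M` over `K(√d_1, …, √d_n)` are zero. This is the case for exactly the
proportion `c = 0.4194…` of the `D` of the class. -/
theorem result :
    (∀ D : ℕ, Adm D → {q : ℕ | TowerPrime D q}.Infinite ∧
      (∀ n : ℕ, ∃ S : Fin n → Finset ℕ, (∀ i, EvenSet D (S i)) ∧ Ind fun i => ∏ q ∈ S i, q) ∧
      (RankZeroShaTwo D → ∀ U : Finset ℕ, EvenSet D U → ∀ (n : ℕ) (S : Fin n → Finset ℕ),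
        (∀ i, EvenSet D (S i)) → AllWeights (D * ∏ q ∈ U, q) (fun i => ∏ q ∈ S i, q))) ∧
    Filter.Tendsto (prop RankZeroShaTwo) Filter.atTop (nhds c) ∧
    0.4194 < c ∧ c < 0.4195 := by
  have hc := Pool.Agent.Y948.CQ.t_C2.2.2.2
  refine ⟨fun D hD => ⟨tp_inf hD, exists_ind hD, fun hR U hU n S hS => ?_⟩, law, hc.1, hc.2⟩
  exact Pool.Agent.Results.MP_787500_nt.AllWeightsMultiquadraticX49.all_of (good hD hR hU S hS)

end Pool.Agent.Results.MP_787500_nt.InfiniteTowersX49
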