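import Pool.Agent.Results.MP_787500_nt.MajorityDiagonalCubics
import Pool.Agent.U687.KT.Cube

/-!
# The conjecture of Bloch and Kato (`p = 3`) for the diagonal cubic curves, threefolds and fivefolds over
# `ℚ(√-3)` one coefficient of which is multiplied by a prime: exact densities, all coefficients

`K` is the field of the third roots of unity.  We fix different primes `π_1, …, π_n = 1` modulo `3` of
`𝓞 K`.  Let `c = 0, 1, 2`, let `a_l = ω ^ u_l ∏ π_k ^ b_{l,k}`, `l = 0, …, 2 c + 2`, be ARBITRARY elements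
of the group generated by `ω` and the `π_k` modulo cubes (every nonzero element of `K` whose valuation at
`√-3` is divisible by three is of this form up to a cube, for suitable `π_k`), `i₀` an index, `f = 1, 2`,
and let `q = 1` modulo `3` be a variable prime.  We study the smooth cubic hypersurface

  `X_q : ∑_{l ≠ i₀} a_l y_l³ x_l³ + a_{i₀} y_{i₀}³ q ^ f x_{i₀}³ = 0`

of dimension `2 c + 1` (`y_l` any nonzero elements of `𝓞 K`).  By the count of points its cohomology in the
middle dimension is that of the curves `E_δ : y² + δ y = x³`, `δ = δ_T(q)`, over the sets `T` of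
`c` indices (`Decomposition`, in the starting hand-in `MajorityDiagonalCubics`); up to a cube `δ_T(q)` is
`D_T(q) = ω ^ i ∏ π_k ^ e_k q ^ g`, with exponents `e_k`, `g` equal to `0, 1, 2` and `g ≠ 0`.

Nothing is assumed on the curves.  We fix the class `1 + 3 a` modulo `9` of the norm of `q`, such that
no `D_T(q)` is both `1` modulo `3` and of norm `1` modulo `9`.

* The proportion of the primes `q` of this class for which `E_{D_T(q)}(K)` is finite and
  `Ш(E_{D_T(q)} / K)[3^∞] = 0` for ALL the `T` tends to the proportion of the vectors `x` of length `n`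
  over the field with three elements such that for all the `T` the graph of `D_T(q)`, with the new
  vertex `q` joined to `π_k` by `x_k` and to `ω` by `a`, is connected (in the sense of the weighted Laplacian
  over the field with three elements).
* For all these `q` both sides of the conjecture are zero for `X_q` and `p = 3`: `E ⊗ ℚ_3` and
  `H¹_f(K, V_3 E)` are zero for all the curves `E = E_{δ_T(q)}`.
* Curves (`c = 0`): the proportion is at least `(2 / 3) ^ n` if `∑ e_k η_k + f a ≠ 0`.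
* Suppose that at most two of the `a_l` are not cubes, `a_{i₀}` and `a_{i₁}`, which are arbitrary.  Then there
  is a class `a` for which the proportion is at least `3 ^ (- n) > 0`, for the curves, the
  threefolds and the fivefolds.  In particular, for all `m₀, m₁` prime to three both sides of the
  conjecture are zero for a positive proportion of the threefolds
  `m₀ q x_0³ + m₁ x_1³ + x_2³ + x_3³ + x_4³ = 0`.

The relation with `CH^{c+1}(X_q)_0` (Bloch–Murre, Collino, Paranjape) is as in `MajorityDiagonalCubics`; it is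
not formalized.

Proof.  The criterion for one curve `E_D` is the starting result (projects FF, FG).  By cubic reciprocity
the new prime is a new vertex of the graph of every `D_T`, and its symbols are the SAME free
perturbation of the diagonals of all the reduced Laplacians (up to the sign); their joint law
follows from the theorem of Chebotarev.  For two of the coefficients the determinants are, by the duality
`D ↦ D²`, those of two matrices only, and two determinants can be made nonzero by one diagonal matrix: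
each new entry has to avoid at most two of the three values.
-/

set_option autoImplicit false

namespace Pool.Agent.Results.MP_787500_nt.PrimeTwistsOfDiagonalCubics

open NumberField Filter Topology
open Pool.Agent.Results.MP_787500_nt.MajorityDiagonalCubics (curve Settled FiniteAndTrivial)
open scoped Classical

variable {K : Type} [Field K] [NumberField K]

/-- The `π_k` are primes, `1` modulo `3`, none divides another, and the cubic residue symbols of `π_k` and
of `ω` modulo `π_j` are `ω ^ χ j k` and `ω ^ η j`. -/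
def IsSystem (ω : 𝓞 K) (n : ℕ) (π : Fin n → 𝓞 K) (χ : Fin n → Fin n → ZMod 3)
    (η : Fin n → ZMod 3) : Prop :=
  (∀ k, Prime (π k) ∧ (3 : 𝓞 K) ∣ π k - 1) ∧
  (∀ k j, k ≠ j → ¬ π j ∣ π k ∧
    π j ∣ π k ^ (((Algebra.norm ℤ (π j)).natAbs - 1) / 3) - ω ^ (χ j k).val) ∧
  ∀ j, π j ∣ ω ^ (((Algebra.norm ℤ (π j)).natAbs - 1) / 3) - ω ^ (η j).val

/-- `ω ^ i ∏ π_k ^ e_k` -/
def monomial {n : ℕ} (ω : 𝓞 K) (π : Fin n → 𝓞 K) (i : ZMod 3) (e : Fin n → ZMod 3) : 𝓞 K :=
  ω ^ i.val * ∏ k, π k ^ (e k).val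

/-- The coefficients of `X_q`. -/
def coefficient {n c : ℕ} (ω : 𝓞 K) (π : Fin n → 𝓞 K) (u : Fin (2 * c + 3) → ZMod 3)
    (b : Fin (2 * c + 3) → Fin n → ZMod 3) (i₀ : Fin (2 * c + 3)) (f : ZMod 3)
    (y : Fin (2 * c + 3) → 𝓞 K) (q : 𝓞 K) (l : Fin (2 * c + 3)) : 𝓞 K :=
  monomial ω π (u l) (b l) * y l ^ 3 * (if l = i₀ then q ^ f.val else 1)

/-- `∑ g + ∑_T g`, the exponent of a prime in `δ_T`. -/
def weight {ι M : Type} [Fintype ι] [AddCommMonoid M] (g : ι → M) (T : Finset ι) : M :=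
  ∑ l, g l + ∑ l ∈ T, g l

/-- The exponent of `q` in `δ_T`. -/
def weightQ {c : ℕ} (i₀ : Fin (2 * c + 3)) (f : ZMod 3) (T : Finset (Fin (2 * c + 3))) : ZMod 3 :=
  weight (fun l => if l = i₀ then f else 0) T

/-- The representative `D_T(q)` of `δ_T(q)` modulo cubes. -/
def representative {n c : ℕ} (ω : 𝓞 K) (π : Fin n → 𝓞 K) (u : Fin (2 * c + 3) → ZMod 3)
    (b : Fin (2 * c + 3) → Fin n → ZMod 3) (i₀ : Fin (2 * c + 3)) (f : ZMod 3)
    (T : Finset (Fin (2 * c + 3))) (q : 𝓞 K) : 𝓞 K :=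
  monomial ω π (weight u T) (weight b T) * q ^ (weightQ i₀ f T).val

/-- The Laplacian, over the field with three elements, of the graph with the vertices `k` such that
`e k ≠ 0` (values `v k`) and `ω` (value `t`) has no solutions besides the multiples of `v k = 1`,
`t = i`. -/
def IsConnected {n : ℕ} (e : Fin n → ZMod 3) (i : ZMod 3) (χ : Fin n → Fin n → ZMod 3)
    (η : Fin n → ZMod 3) : Prop :=
  ∀ (v : Fin n → ZMod 3) (t : ZMod 3),
    (∀ j, e j ≠ 0 → ∑ k, e k * χ j k * (v k - v j) + η j * (t - i * v j) = 0) →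
    ∀ j, e j ≠ 0 → t = i * v j ∧ ∀ k, e k ≠ 0 → v k = v j

/-- The symbols of the graph with the new vertex `0`, joined to the old vertices by `x`. -/
def addVertex {n : ℕ} (χ : Fin n → Fin n → ZMod 3) (x : Fin n → ZMod 3) :
    Fin (n + 1) → Fin (n + 1) → ZMod 3 :=
  Fin.cons (Fin.cons 0 x) fun j => Fin.cons (x j) (χ j)

/-- All the graphs of the `D_T(q)` are connected if the new vertex is joined to the old vertices by `x`
and to `ω` by `a`. -/
def AllConnected {n c : ℕ} (χ : Fin n → Fin n → ZMod 3) (η : Fin n → ZMod 3)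
    (u : Fin (2 * c + 3) → ZMod 3) (b : Fin (2 * c + 3) → Fin n → ZMod 3) (i₀ : Fin (2 * c + 3))
    (f a : ZMod 3) (x : Fin n → ZMod 3) : Prop :=
  ∀ T : Finset (Fin (2 * c + 3)), T.card = c →
    IsConnected (Fin.cons (weightQ i₀ f T) (weight b T) : Fin (n + 1) → ZMod 3) (weight u T)
      (addVertex χ x) (Fin.cons a η : Fin (n + 1) → ZMod 3)

/-- No `D_T(q)` is both `1` modulo `3` and of norm `1` modulo `9`, for `q` of norm `1 + 3 a` modulo `9`. -/
def NotExceptional {n c : ℕ} (η : Fin n → ZMod 3) (u : Fin (2 * c + 3) → ZMod 3)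
    (b : Fin (2 * c + 3) → Fin n → ZMod 3) (i₀ : Fin (2 * c + 3)) (f a : ZMod 3) : Prop :=
  ∀ T : Finset (Fin (2 * c + 3)), T.card = c → weight u T = 0 →
    ∑ k, weight b T k * η k + weightQ i₀ f T * a ≠ 0

/-- The primes `q = 1` modulo `3` of norm at most `X`, the norm being `1 + 3 a` modulo `9`. -/
def Primes (K : Type) [Field K] [NumberField K] (a : ZMod 3) (X : ℕ) : Set (𝓞 K) :=
  {q | Prime q ∧ (3 : 𝓞 K) ∣ q - 1 ∧ Algebra.norm ℤ q ≤ X ∧
    Algebra.norm ℤ q % 9 = 1 + 3 * (a.val : ℤ)}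

section proof

open Pool.Agent.U687.KT
open Pool.Agent.Y696.CTK (Tri ED)
open Pool.Agent.N883.FG (bz_vr decAt)
open Pool.Agent.N883.DQ (BZ Dt)

theorem wq_eq {c : ℕ} (i₀ : Fin (2 * c + 3)) (f : ZMod 3) (T : Finset (Fin (2 * c + 3))) :
    weightQ i₀ f T = if i₀ ∈ T then f + f else f := by
  unfold weightQ weight
  rw [Finset.sum_ite_eq' Finset.univ i₀ (fun _ => f), Finset.sum_ite_eq' T i₀ (fun _ => f),
    if_pos (Finset.mem_univ i₀)]
  split_ifs
  · rfl
  · rw [add_zero]

theorem wq_ne {c : ℕ} (i₀ : Fin (2 * c + 3)) {f : ZMod 3} (hf : f ≠ 0)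
    (T : Finset (Fin (2 * c + 3))) : weightQ i₀ f T ≠ 0 := by
  rw [wq_eq]
  split_ifs
  · have : ∀ f : ZMod 3, f ≠ 0 → f + f ≠ 0 := by decide
    exact this f hf
  · exact hf

/-- `δ_T(q)` is `D_T(q)` up to a cube -/
theorem delta_cr {n c : ℕ} {ω : 𝓞 K} {π : Fin n → 𝓞 K} (hω : ω ≠ 0) (hπ : ∀ k, π k ≠ 0)
    (u : Fin (2 * c + 3) → ZMod 3) (b : Fin (2 * c + 3) → Fin n → ZMod 3) (i₀ : Fin (2 * c + 3))
    (f : ZMod 3) {y : Fin (2 * c + 3) → 𝓞 K} (hy : ∀ l, y l ≠ 0) {q : 𝓞 K} (hq : q ≠ 0)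
    (T : Finset (Fin (2 * c + 3))) :
    CR (Dt (coefficient ω π u b i₀ f y q) T) (representative ω π u b i₀ f T q) := by
  have hπ' : ∀ k, (Fin.cons q π : Fin (n + 1) → 𝓞 K) k ≠ 0 := fun k => Fin.cases hq hπ k
  have h1 := mon_wt (R := 𝓞 K) hω hπ' T u
    (fun l => (Fin.cons (if l = i₀ then f else 0) (b l) : Fin (n + 1) → ZMod 3))
    (x := coefficient ω π u b i₀ f y q) (fun l => by
      rw [mon_cons]
      have e1 : coefficient ω π u b i₀ f y q l =
          (mon ω π (u l) (b l) * q ^ (if l = i₀ then f else 0 : ZMod 3).val) * y l ^ 3 := by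
        unfold coefficient monomial mon
        split_ifs
        · ring
        · rw [ZMod.val_zero, pow_zero]
          ring
      rw [e1]
      exact CR.cube _ (hy l))
  rw [wt_cons, mon_cons] at h1
  exact h1

theorem settled {n c : ℕ} (hc : c ≤ 2) {ω : 𝓞 K} {π : Fin n → 𝓞 K} (hω : ω ≠ 0)
    (hπ : ∀ k, π k ≠ 0) (u : Fin (2 * c + 3) → ZMod 3) (b : Fin (2 * c + 3) → Fin n → ZMod 3)
    (i₀ : Fin (2 * c + 3)) (f : ZMod 3) {y : Fin (2 * c + 3) → 𝓞 K} (hy : ∀ l, y l ≠ 0) {q : 𝓞 K}
    (hq : q ≠ 0) (h : ∀ T : Finset (Fin (2 * c + 3)), T.card = c →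
      FiniteAndTrivial (representative ω π u b i₀ f T q)) :
    Settled K c (coefficient ω π u b i₀ f y q) := by
  refine ⟨fun v h3 hv => decAt hc _ v h3 hv, fun T hT => ?_⟩
  obtain ⟨s, t, hs, ht, hst⟩ := delta_cr hω hπ u b i₀ f hy hq T
  have c0 : ∀ x : 𝓞 K, x ≠ 0 → (x : K) ≠ 0 := fun x hx h => hx (RingOfIntegers.ext (by rw [h]; rfl))
  have hr0 : representative ω π u b i₀ f T q ≠ 0 := by
    unfold representative monomial
    refine mul_ne_zero (mul_ne_zero (pow_ne_zero _ hω) ?_) (pow_ne_zero _ hq)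
    exact Finset.prod_ne_zero_iff.2 fun k _ => pow_ne_zero _ (hπ k)
  have htri : Tri (representative ω π u b i₀ f T q) := h T hT
  have hsK := c0 s hs
  have htK := c0 t ht
  have hstK : ((Dt (coefficient ω π u b i₀ f y q) T : 𝓞 K) : K) =
      (representative ω π u b i₀ f T q : K) * ((t : K) / (s : K)) ^ 3 := by
    have h1 := congrArg (fun x : 𝓞 K => (x : K)) hst
    push_cast at h1
    rw [div_pow, ← mul_div_assoc, eq_div_iff (pow_ne_zero 3 hsK)]
    exact h1
  exact bz_vr (m := 0) (div_ne_zero htK hsK) (c0 _ hr0) hstK htri.1 fun k x hx => by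
    rw [pow_zero, one_smul]
    exact htri.2 k x hx

/-- the two classes of the sets `T` if at most two coefficients are not cubes -/
theorem two_classes {n c : ℕ} {u : Fin (2 * c + 3) → ZMod 3} {b : Fin (2 * c + 3) → Fin n → ZMod 3}
    {i₀ i₁ : Fin (2 * c + 3)} (h01 : i₀ ≠ i₁) (hu : ∀ l, l ≠ i₀ → l ≠ i₁ → u l = 0 ∧ b l = 0)
    (f : ZMod 3) (T : Finset (Fin (2 * c + 3))) :
    ∃ ε : ZMod 3, (ε = 1 ∨ ε = -1) ∧
      ((weight u T = ε * (u i₀ + u i₁) ∧ weight b T = (fun k => ε * (b i₀ k + b i₁ k)) ∧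
        weightQ i₀ f T = ε * f) ∨
      (weight u T = ε * (u i₀ - u i₁) ∧ weight b T = (fun k => ε * (b i₀ k - b i₁ k)) ∧
        weightQ i₀ f T = ε * f)) := by
  have key : ∀ {M : Type} [AddCommGroup M] (g : Fin (2 * c + 3) → M),
      (∀ l, l ≠ i₀ → l ≠ i₁ → g l = 0) → weight g T = g i₀ + g i₁ +
        ((if i₀ ∈ T then g i₀ else 0) + (if i₁ ∈ T then g i₁ else 0)) := by
    intro M _ g hg
    unfold weight
    have e0 : ∀ S : Finset (Fin (2 * c + 3)), ∑ l ∈ S, g l =
        (if i₀ ∈ S then g i₀ else 0) + (if i₁ ∈ S then g i₁ else 0) := by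
      intro S
      have e1 : ∀ l, g l = (if l = i₀ then g i₀ else 0) + (if l = i₁ then g i₁ else 0) := by
        intro l
        by_cases h1 : l = i₀
        · rw [if_pos h1, if_neg (by rw [h1]; exact h01), add_zero, h1]
        · by_cases h2 : l = i₁
          · rw [if_neg h1, if_pos h2, zero_add, h2]
          · rw [if_neg h1, if_neg h2, add_zero, hg l h1 h2]
      rw [Finset.sum_congr rfl fun l _ => e1 l, Finset.sum_add_distrib, Finset.sum_ite_eq' S i₀,
        Finset.sum_ite_eq' S i₁]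
    rw [e0 Finset.univ, e0 T, if_pos (Finset.mem_univ _), if_pos (Finset.mem_univ _)]
  have hu' := key u fun l h1 h2 => (hu l h1 h2).1
  have hb' := key b fun l h1 h2 => (hu l h1 h2).2
  have hd : ∀ x y : ZMod 3, x + y + (x + y) = -1 * (x + y) := by decide
  have hd1 : ∀ x y : ZMod 3, x + y + (x + 0) = -1 * (x - y) := by decide
  have hd2 : ∀ x y : ZMod 3, x + y + (0 + y) = 1 * (x - y) := by decide
  have hf2 : ∀ x : ZMod 3, x + x = -1 * x := by decide
  rw [wq_eq]
  by_cases h0 : i₀ ∈ T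
  · refine ⟨-1, Or.inr rfl, ?_⟩
    by_cases h1 : i₁ ∈ T
    · left
      rw [if_pos h0, if_pos h1] at hu' hb'
      rw [hu', hb', if_pos h0]
      exact ⟨hd _ _, funext fun k => hd _ _, hf2 f⟩
    · right
      rw [if_pos h0, if_neg h1] at hu' hb'
      rw [hu', hb', if_pos h0]
      exact ⟨hd1 _ _, funext fun k => hd1 _ _, hf2 f⟩
  · refine ⟨1, Or.inl rfl, ?_⟩
    by_cases h1 : i₁ ∈ T
    · right
      rw [if_neg h0, if_pos h1] at hu' hb'
      rw [hu', hb', if_neg h0]
      exact ⟨hd2 _ _, funext fun k => hd2 _ _, (one_mul f).symm⟩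
    · left
      rw [if_neg h0, if_neg h1] at hu' hb'
      rw [hu', hb', if_neg h0]
      refine ⟨by ring, funext fun k => ?_, (one_mul f).symm⟩
      show b i₀ k + b i₁ k + (0 + 0) = 1 * (b i₀ k + b i₁ k)
      ring

theorem conn_sign {n : ℕ} {χ : Fin n → Fin n → ZMod 3} {η : Fin n → ZMod 3} {x : Fin n → ZMod 3}
    {f i a ε : ZMod 3} {e : Fin n → ZMod 3} (hε : ε = 1 ∨ ε = -1)
    (h : CS (Fin.cons f e : Fin (n + 1) → ZMod 3) i (ex1 χ x)
      (Fin.cons a η : Fin (n + 1) → ZMod 3)) :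
    CS (Fin.cons (ε * f) (fun k => ε * e k) : Fin (n + 1) → ZMod 3) (ε * i) (ex1 χ x)
      (Fin.cons a η : Fin (n + 1) → ZMod 3) := by
  rcases hε with rfl | rfl
  · simp only [one_mul]
    exact h
  · have h1 := cs_neg h
    have e1 : (fun k => -(Fin.cons f e : Fin (n + 1) → ZMod 3) k) =
        (Fin.cons (-1 * f) (fun k => -1 * e k) : Fin (n + 1) → ZMod 3) := by
      funext k
      refine Fin.cases ?_ (fun k => ?_) k
      · simp
      · simp
    rw [e1] at h1
    rw [neg_one_mul i]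
    exact h1

end proof

open Pool.Agent.U687.KT in
/-- **The conjecture of Bloch and Kato for the prime twists of all the diagonal cubics.** -/
theorem result (K : Type) [Field K] [NumberField K] [IsCyclotomicExtension {3} ℚ K] :
    ∀ (ω : 𝓞 K) (n : ℕ) (π : Fin n → 𝓞 K) (χ : Fin n → Fin n → ZMod 3) (η : Fin n → ZMod 3),
      ω ^ 2 + ω + 1 = 0 → IsSystem ω n π χ η → ∀ c : ℕ, c ≤ 2 →
      ∀ (u : Fin (2 * c + 3) → ZMod 3) (b : Fin (2 * c + 3) → Fin n → ZMod 3)
        (i₀ : Fin (2 * c + 3)) (f : ZMod 3), f ≠ 0 →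
      (∀ q : 𝓞 K, Prime q → (∀ T : Finset (Fin (2 * c + 3)), T.card = c →
        FiniteAndTrivial (representative ω π u b i₀ f T q)) →
          ∀ y : Fin (2 * c + 3) → 𝓞 K, (∀ l, y l ≠ 0) →
            Settled K c (coefficient ω π u b i₀ f y q)) ∧
      (∀ a : ZMod 3, NotExceptional η u b i₀ f a →
        Tendsto (fun X : ℕ =>
          ({q : 𝓞 K | q ∈ Primes K a X ∧ ∀ T : Finset (Fin (2 * c + 3)), T.card = c →
            FiniteAndTrivial (representative ω π u b i₀ f T q)}.ncard : ℝ) /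
              ((Primes K a X).ncard : ℝ)) atTop
          (𝓝 ((Nat.card {x : Fin n → ZMod 3 // AllConnected χ η u b i₀ f a x} : ℝ) / 3 ^ n))) ∧
      (c = 0 → ∀ a : ZMod 3, ∑ k, (∑ l, b l) k * η k + f * a ≠ 0 →
        NotExceptional η u b i₀ f a ∧ (2 / 3 : ℝ) ^ n ≤
          (Nat.card {x : Fin n → ZMod 3 // AllConnected χ η u b i₀ f a x} : ℝ) / 3 ^ n) ∧
      (∀ i₁ : Fin (2 * c + 3), i₀ ≠ i₁ → (∀ l, l ≠ i₀ → l ≠ i₁ → u l = 0 ∧ b l = 0) →
        ∃ a : ZMod 3, NotExceptional η u b i₀ f a ∧ (1 / 3 : ℝ) ^ n ≤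
          (Nat.card {x : Fin n → ZMod 3 // AllConnected χ η u b i₀ f a x} : ℝ) / 3 ^ n) := by
  intro ω n π χ η hω hsys c hc u b i₀ f hf
  obtain ⟨⟨j, hj⟩, -⟩ := Pool.Agent.Y455.CTK.jex K
  obtain ⟨j, hj, rfl⟩ := exists_j j hj hω
  have hsys' : IsSys (j Pool.Agent.Y692.QS.w) n π χ η := hsys
  have hω0 : j Pool.Agent.Y692.QS.w ≠ 0 := by
    intro h
    rw [h] at hω
    norm_num at hω
  have hπ0 : ∀ k, π k ≠ 0 := fun k => (hsys.1 k).1.ne_zero
  have hs : ∀ k l, k ≠ l → χ k l = χ l k := fun k l hkl => sys_symm j hj hsys' k l hkl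
  have hpos : (0 : ℝ) < 3 ^ n := by positivity
  refine ⟨fun q hq h y hy => settled hc hω0 hπ0 u b i₀ f hy hq.ne_zero h, fun a ha => ?_,
    fun hc0 a ha => ?_, fun i₁ h01 hu => ?_⟩
  · refine law_K j hj hsys' a (AllConnected χ η u b i₀ f a)
      (fun q => ∀ T : Finset (Fin (2 * c + 3)), T.card = c →
            FiniteAndTrivial (representative (j Pool.Agent.Y692.QS.w) π u b i₀ f T q)) ?_
    intro z hz hne haz
    refine forall₂_congr fun T hT => ?_
    exact (twist2 j hj hsys' (wq_ne i₀ hf T) (ha T hT) hz hne haz).2.2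
  · subst hc0
    have hT : ∀ T : Finset (Fin (2 * 0 + 3)), T.card = 0 → weight b T = ∑ l, b l ∧
        weightQ i₀ f T = f := by
      intro T hT
      rw [Finset.card_eq_zero] at hT
      subst hT
      refine ⟨?_, ?_⟩
      · unfold weight
        rw [Finset.sum_empty, add_zero]
      · rw [wq_eq, if_neg (Finset.notMem_empty _)]
    refine ⟨fun T hc _ => ?_, ?_⟩
    · rw [(hT T hc).1, (hT T hc).2]
      exact ha
    · have h1 := card_cs_ge (i := weight u ∅) hs hf ha
      have h2 : Nat.card {x : Fin n → ZMod 3 // AllConnected χ η u b i₀ f a x} =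
          Nat.card {x : Fin n → ZMod 3 // CS (Fin.cons f (∑ l, b l) : Fin (n + 1) → ZMod 3)
            (weight u ∅) (ex1 χ x) (Fin.cons a η : Fin (n + 1) → ZMod 3)} := by
        refine Nat.card_congr (Equiv.subtypeEquivRight fun x => ?_)
        constructor
        · intro h
          have h3 := h ∅ rfl
          rw [(hT ∅ rfl).1, (hT ∅ rfl).2] at h3
          exact h3
        · intro h T hc
          have hc' := Finset.card_eq_zero.1 hc
          subst hc'
          rw [(hT ∅ rfl).1, (hT ∅ rfl).2]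
          exact h
      rw [h2, div_pow]
      refine div_le_div_of_nonneg_right ?_ hpos.le
      exact_mod_cast h1
  · -- the class of `a`
    obtain ⟨a, hA, hB⟩ : ∃ a : ZMod 3, ∑ k, (b i₀ k + b i₁ k) * η k + f * a ≠ 0 ∧
        ∑ k, (b i₀ k - b i₁ k) * η k + f * a ≠ 0 := by
      have : ∀ s s' f : ZMod 3, f ≠ 0 → ∃ a : ZMod 3, s + f * a ≠ 0 ∧ s' + f * a ≠ 0 := by decide
      exact this _ _ f hf
    refine ⟨a, ?_, ?_⟩
    · intro T _ _
      have hmul : ∀ (ε : ZMod 3), (ε = 1 ∨ ε = -1) → ε ≠ 0 := by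
        rintro ε (rfl | rfl) <;> decide
      obtain ⟨ε, hε, ⟨-, h2, h3⟩ | ⟨-, h2, h3⟩⟩ := two_classes h01 hu f T
      · rw [h2, h3]
        have e1 : ∑ k, (fun k => ε * (b i₀ k + b i₁ k)) k * η k + ε * f * a =
            ε * (∑ k, (b i₀ k + b i₁ k) * η k + f * a) := by
          rw [mul_add, Finset.mul_sum]
          congr 1
          · exact Finset.sum_congr rfl fun k _ => by ring
          · ring
        rw [e1]
        exact mul_ne_zero (hmul ε hε) hA
      · rw [h2, h3]
        have e1 : ∑ k, (fun k => ε * (b i₀ k - b i₁ k)) k * η k + ε * f * a =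
            ε * (∑ k, (b i₀ k - b i₁ k) * η k + f * a) := by
          rw [mul_add, Finset.mul_sum]
          congr 1
          · exact Finset.sum_congr rfl fun k _ => by ring
          · ring
        rw [e1]
        exact mul_ne_zero (hmul ε hε) hB
    · obtain ⟨x, h1, h2⟩ := exists_two (e := fun k => b i₀ k + b i₁ k) (i := u i₀ + u i₁)
        (e' := fun k => b i₀ k - b i₁ k) (i' := u i₀ - u i₁) hs hf hf hA hB
      have hx : AllConnected χ η u b i₀ f a x := by
        intro T _
        obtain ⟨ε, hε, ⟨h3, h4, h5⟩ | ⟨h3, h4, h5⟩⟩ := two_classes h01 hu f T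
        · rw [h3, h4, h5]
          exact conn_sign hε h1
        · rw [h3, h4, h5]
          exact conn_sign hε h2
      have hcard : 0 < Nat.card {x : Fin n → ZMod 3 // AllConnected χ η u b i₀ f a x} := by
        have : Nonempty {x : Fin n → ZMod 3 // AllConnected χ η u b i₀ f a x} := ⟨⟨x, hx⟩⟩
        exact Nat.card_pos
      rw [div_pow, one_pow]
      refine div_le_div_of_nonneg_right ?_ hpos.le
      exact_mod_cast hcard

end Pool.Agent.Results.MP_787500_nt.PrimeTwistsOfDiagonalCubics
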